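import Pool.Agent.H17.CF.FX.Ev

/-!
# Generic extensions: truth lemma for atomic formulas
-/

set_option autoImplicit false
set_option linter.unusedVariables false
set_option linter.unusedSectionVars false
set_option linter.unusedSimpArgs false

universe u v w

namespace Pool.Agent.H17.CF

open Pool.Agent.H17.Omega Name CTM

variable {Q : Type u} [Preorder Q] {M : Set ZFSet.{u}} {c : Q → ZFSet.{u}} {G : Set Q}

/-- The forcing relation for equality is a definable relation. -/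
theorem exists_feqR (hM : CTM M) {P R : ZFSet.{u}} (h : PR M c P R) :
    ∃ FE : M → M → M → Prop, hM.Dfn (fun v : Fin 3 → M => FE (v 0) (v 1) (v 2)) ∧
      ∀ (q : Q) (w a b : M), w.1 = c q → (FE w a b ↔ feq (nm c a.1) (nm c b.1) q) := by
  obtain ⟨F, hF, hF'⟩ := exists_feq hM h
  refine ⟨fun w a b => ∃ e s : M, e.1 = ZFSet.pair a.1 b.1 ∧ F e = s ∧ w.1 ∈ s.1, ?_, ?_⟩
  · refine Dfn.ex (Dfn.ex (Dfn.and ?_ (Dfn.and (Dfn.subst2 (P := fun e s => F e = s) hF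
      (DT.var _) (DT.var _)) ?_)))
    · (repeat' first
          | exact DT.var _ | exact DT.last | exact DT.const _ | assumption
          | refine Dfn.pairMem ?_ ?_ ?_ | refine Dfn.isPair ?_ ?_ ?_ | refine Dfn.mem ?_ ?_
          | refine Dfn.eqv ?_ ?_ | refine Dfn.eq ?_ ?_ | refine Dfn.subset ?_ ?_
          | refine Dfn.isEmpty ?_ | refine Dfn.isTrans ?_ | refine Dfn.isOrd ?_
          | refine Dfn.isNat ?_ | refine Dfn.and ?_ ?_ | refine Dfn.or ?_ ?_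
          | refine Dfn.iff ?_ ?_ | refine Dfn.not ?_ | refine Dfn.imp ?_ ?_ | refine Dfn.all ?_
          | refine Dfn.ex ?_ | exact Dfn.false')
    · (repeat' first
          | exact DT.var _ | exact DT.last | exact DT.const _ | assumption
          | refine Dfn.pairMem ?_ ?_ ?_ | refine Dfn.isPair ?_ ?_ ?_ | refine Dfn.mem ?_ ?_
          | refine Dfn.eqv ?_ ?_ | refine Dfn.eq ?_ ?_ | refine Dfn.subset ?_ ?_
          | refine Dfn.isEmpty ?_ | refine Dfn.isTrans ?_ | refine Dfn.isOrd ?_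
          | refine Dfn.isNat ?_ | refine Dfn.and ?_ ?_ | refine Dfn.or ?_ ?_
          | refine Dfn.iff ?_ ?_ | refine Dfn.not ?_ | refine Dfn.imp ?_ ?_ | refine Dfn.all ?_
          | refine Dfn.ex ?_ | exact Dfn.false')
  · intro q w a b hw
    constructor
    · rintro ⟨e, s, he, rfl, h1⟩
      rw [hw] at h1
      exact ((hF' a b e he).2 q).1 h1
    · intro h1
      exact ⟨⟨_, hM.pair_mem a.2 b.2⟩, _, rfl, rfl, by rw [hw]; exact ((hF' a b _ rfl).2 q).2 h1⟩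

theorem feq_truth (hM : CTM M) (hQ : PosetIn M Q c) (hG : GenF M c G) : ∀ {a b : ZFSet.{u}},
    a ∈ M → b ∈ M → (ev c G a = ev c G b ↔ ∃ p ∈ G, feq (nm c a) (nm c b) p) := by
  obtain ⟨P, R, hPR⟩ := hQ.exists_PR
  obtain ⟨FE, hFE, hFE'⟩ := exists_feqR hM hPR
  have hR := hPR.hR
  have hP := hPR.hP
  have key : ∀ (o : Ordinal.{u}) (a b : ZFSet.{u}), a.rank = o → a ∈ M → b ∈ M →
      (ev c G a = ev c G b ↔ ∃ p ∈ G, feq (nm c a) (nm c b) p) := by
    intro o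
    induction o using WellFoundedLT.induction with
    | ind o ih =>
    intro a b ho ha hb
    have haM : ∀ {a' : ZFSet.{u}} {p : Q}, ZFSet.pair a' (c p) ∈ a → a' ∈ M := fun h =>
      (hM.of_pair_mem (hM.mem_of_mem ha h)).1
    have hbM : ∀ {b' : ZFSet.{u}} {p : Q}, ZFSet.pair b' (c p) ∈ b → b' ∈ M := fun h =>
      (hM.of_pair_mem (hM.mem_of_mem hb h)).1
    have ih' : ∀ {a' b' : ZFSet.{u}} {p p' : Q}, ZFSet.pair a' (c p) ∈ a → ZFSet.pair b' (c p') ∈ b →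
        (ev c G a' = ev c G b' ↔ ∃ p ∈ G, feq (nm c a') (nm c b') p) := fun h h' =>
      ih _ (by rw [← ho]; exact rank_fst_lt h) _ _ rfl (haM h) (hbM h')
    constructor
    · intro heq
      -- dense set
      obtain ⟨p0, hp0⟩ := hG.ne
      -- second kind and third kind
      let A2 : M → Prop := fun w => ∃ a' : M, ∃ p : M, ZFSet.pair a'.1 p.1 ∈ (⟨a, ha⟩ : M).1 ∧
        ZFSet.pair w.1 p.1 ∈ (⟨R, hR⟩ : M).1 ∧ ∀ b' : M, ∀ r : M, ∀ q : M,
        ZFSet.pair b'.1 r.1 ∈ (⟨b, hb⟩ : M).1 → ZFSet.pair q.1 w.1 ∈ (⟨R, hR⟩ : M).1 →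
        ZFSet.pair q.1 r.1 ∈ (⟨R, hR⟩ : M).1 → ¬ FE q a' b'
      let A3 : M → Prop := fun w => ∃ b' : M, ∃ p : M, ZFSet.pair b'.1 p.1 ∈ (⟨b, hb⟩ : M).1 ∧
        ZFSet.pair w.1 p.1 ∈ (⟨R, hR⟩ : M).1 ∧ ∀ a' : M, ∀ r : M, ∀ q : M,
        ZFSet.pair a'.1 r.1 ∈ (⟨a, ha⟩ : M).1 → ZFSet.pair q.1 w.1 ∈ (⟨R, hR⟩ : M).1 →
        ZFSet.pair q.1 r.1 ∈ (⟨R, hR⟩ : M).1 → ¬ FE q a' b'
      have hD : hM.Dfn (fun v : Fin 1 → M => FE (v 0) ⟨a, ha⟩ ⟨b, hb⟩ ∨ A2 (v 0) ∨ A3 (v 0)) := by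
        (repeat' first
            | exact DT.var _ | exact DT.last | exact DT.const _ | assumption
            | refine Dfn.pairMem ?_ ?_ ?_ | refine Dfn.isPair ?_ ?_ ?_ | refine Dfn.mem ?_ ?_
            | refine Dfn.eqv ?_ ?_ | refine Dfn.eq ?_ ?_ | refine Dfn.subset ?_ ?_
            | refine Dfn.isEmpty ?_ | refine Dfn.isTrans ?_ | refine Dfn.isOrd ?_
            | refine Dfn.isNat ?_ | refine Dfn.and ?_ ?_ | refine Dfn.or ?_ ?_
            | refine Dfn.iff ?_ ?_ | refine Dfn.not ?_ | refine Dfn.imp ?_ ?_ | refine Dfn.all ?_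
            | refine Dfn.ex ?_ | exact Dfn.false')
        · exact Dfn.subst3 hFE (DT.var _) (DT.const _) (DT.const _)
        · exact Dfn.subst3 hFE (DT.var _) (DT.var _) (DT.var _)
        · exact Dfn.subst3 hFE (DT.var _) (DT.var _) (DT.var _)
      obtain ⟨q, hq, hqD⟩ := hG.gen_dfn hM hQ (D := fun w => FE w ⟨a, ha⟩ ⟨b, hb⟩ ∨ A2 w ∨ A3 w) hD hp0 (by
        intro p hp
        by_cases h1 : feq (nm c a) (nm c b) p
        · exact ⟨p, le_rfl, fun z hz => Or.inl ((hFE' p z _ _ hz).2 h1)⟩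
        rw [feq_nm, not_and_or] at h1
        rcases h1 with h1 | h1
        · push Not at h1
          obtain ⟨a', p', h2, q', h3, h4, h5⟩ := h1
          refine ⟨q', h3, fun z hz => Or.inr (Or.inl ⟨⟨a', haM h2⟩, ⟨c p', hPR.c_mem_N hM p'⟩, h2, ?_, ?_⟩)⟩
          · rw [hz]; exact hPR.le_iff.2 h4
          · intro b' r q h6 h7 h8 h9
            obtain ⟨q1, z1, h10, h11, h12⟩ := hPR.of_pair_mem h7
            rw [hz] at h12
            have h12 := hPR.inj h12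
            subst h12
            obtain ⟨q2, r2, h13, h14, h15⟩ := hPR.of_pair_mem h8
            have h16 : q1 = q2 := hPR.inj (h11.symm.trans h14)
            subst h16
            exact h5 q1 h10 b'.1 r2 (by rw [← h15]; exact h6) h13 ((hFE' q1 q _ _ h11).1 h9)
        · push Not at h1
          obtain ⟨b', p', h2, q', h3, h4, h5⟩ := h1
          refine ⟨q', h3, fun z hz => Or.inr (Or.inr ⟨⟨b', hbM h2⟩, ⟨c p', hPR.c_mem_N hM p'⟩, h2, ?_, ?_⟩)⟩
          · rw [hz]; exact hPR.le_iff.2 h4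
          · intro a' r q h6 h7 h8 h9
            obtain ⟨q1, z1, h10, h11, h12⟩ := hPR.of_pair_mem h7
            rw [hz] at h12
            have h12 := hPR.inj h12
            subst h12
            obtain ⟨q2, r2, h13, h14, h15⟩ := hPR.of_pair_mem h8
            have h16 : q1 = q2 := hPR.inj (h11.symm.trans h14)
            subst h16
            exact h5 q1 h10 a'.1 r2 (by rw [← h15]; exact h6) h13 ((hFE' q1 q _ _ h11).1 h9))
      have hqM := hPR.c_mem_N hM q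
      rcases hqD ⟨c q, hqM⟩ rfl with h1 | h1 | h1
      · exact ⟨q, hq, (hFE' q _ _ _ rfl).1 h1⟩
      · exfalso
        obtain ⟨a', p, h2, h3, h4⟩ := h1
        obtain ⟨q1, p1, h5, h6, h7⟩ := hPR.of_pair_mem h3
        have h6 : q = q1 := hPR.inj h6
        subst h6
        rw [h7] at h2
        have h8 : ev c G a'.1 ∈ ev c G b := heq ▸ ev_mem h2 (hG.up _ hq _ h5)
        obtain ⟨b', r, h9, h10, h11⟩ := mem_ev.1 h8
        obtain ⟨s, hs, h12⟩ := (ih' h2 h9).1 h11.symm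
        obtain ⟨t, ht, h13, h14⟩ := hG.dir q hq r h10
        obtain ⟨t', ht', h15, h16⟩ := hG.dir t ht s hs
        exact h4 ⟨b', hbM h9⟩ ⟨c r, hPR.c_mem_N hM r⟩ ⟨c t', hPR.c_mem_N hM t'⟩ h9
          (hPR.le_iff.2 (h15.trans h13)) (hPR.le_iff.2 (h15.trans h14))
          ((hFE' t' _ _ _ rfl).2 (feq_mono h16 h12))
      · exfalso
        obtain ⟨b', p, h2, h3, h4⟩ := h1
        obtain ⟨q1, p1, h5, h6, h7⟩ := hPR.of_pair_mem h3
        have h6 : q = q1 := hPR.inj h6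
        subst h6
        rw [h7] at h2
        have h8 : ev c G b'.1 ∈ ev c G a := heq ▸ ev_mem h2 (hG.up _ hq _ h5)
        obtain ⟨a', r, h9, h10, h11⟩ := mem_ev.1 h8
        obtain ⟨s, hs, h12⟩ := (ih' h9 h2).1 h11
        obtain ⟨t, ht, h13, h14⟩ := hG.dir q hq r h10
        obtain ⟨t', ht', h15, h16⟩ := hG.dir t ht s hs
        exact h4 ⟨a', haM h9⟩ ⟨c r, hPR.c_mem_N hM r⟩ ⟨c t', hPR.c_mem_N hM t'⟩ h9
          (hPR.le_iff.2 (h15.trans h13)) (hPR.le_iff.2 (h15.trans h14))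
          ((hFE' t' _ _ _ rfl).2 (feq_mono h16 h12))
    · rintro ⟨p, hp, hpf⟩
      ext z
      constructor
      · intro hz
        obtain ⟨a', p', h1, h2, rfl⟩ := mem_ev.1 hz
        obtain ⟨r, hr, hrp, hrp'⟩ := hG.dir p hp p' h2
        have hD : hM.Dfn (fun v : Fin 1 → M => ∃ b' : M, ∃ r' : M,
            ZFSet.pair b'.1 r'.1 ∈ (⟨b, hb⟩ : M).1 ∧ ZFSet.pair (v 0).1 r'.1 ∈ (⟨R, hR⟩ : M).1 ∧
            FE (v 0) ⟨a', haM h1⟩ b') := by
          (repeat' first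
              | exact DT.var _ | exact DT.last | exact DT.const _ | assumption
              | refine Dfn.pairMem ?_ ?_ ?_ | refine Dfn.isPair ?_ ?_ ?_ | refine Dfn.mem ?_ ?_
              | refine Dfn.eqv ?_ ?_ | refine Dfn.eq ?_ ?_ | refine Dfn.subset ?_ ?_
              | refine Dfn.isEmpty ?_ | refine Dfn.isTrans ?_ | refine Dfn.isOrd ?_
              | refine Dfn.isNat ?_ | refine Dfn.and ?_ ?_ | refine Dfn.or ?_ ?_
              | refine Dfn.iff ?_ ?_ | refine Dfn.not ?_ | refine Dfn.imp ?_ ?_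
              | refine Dfn.all ?_ | refine Dfn.ex ?_ | exact Dfn.false')
          exact Dfn.subst3 hFE (DT.var _) (DT.const _) (DT.var _)
        obtain ⟨q, hq, hqD⟩ := hG.gen_dfn hM hQ (D := fun w => ∃ b' : M, ∃ r' : M,
            ZFSet.pair b'.1 r'.1 ∈ (⟨b, hb⟩ : M).1 ∧ ZFSet.pair w.1 r'.1 ∈ (⟨R, hR⟩ : M).1 ∧
            FE w ⟨a', haM h1⟩ b') hD hr (by
          intro s hs
          obtain ⟨s', h3, b', r', h4, h5, h6⟩ := (feq_nm c |>.1 hpf).1 a' p' h1 s (hs.trans hrp) (hs.trans hrp')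
          refine ⟨s', h3, fun z hz => ⟨⟨b', hbM h4⟩, ⟨c r', hPR.c_mem_N hM r'⟩, h4, ?_, ?_⟩⟩
          · rw [hz]; exact hPR.le_iff.2 h5
          · exact (hFE' s' _ _ _ hz).2 h6)
        obtain ⟨b', r', h3, h4, h5⟩ := hqD ⟨c q, hPR.c_mem_N hM q⟩ rfl
        obtain ⟨q1, p1, h6, h7, h8⟩ := hPR.of_pair_mem h4
        have h7 : q = q1 := hPR.inj h7
        subst h7
        rw [h8] at h3
        rw [(ih' h1 h3).2 ⟨q, hq, (hFE' q _ _ _ rfl).1 h5⟩]
        exact ev_mem h3 (hG.up _ hq _ h6)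
      · intro hz
        obtain ⟨b', p', h1, h2, rfl⟩ := mem_ev.1 hz
        obtain ⟨r, hr, hrp, hrp'⟩ := hG.dir p hp p' h2
        have hD : hM.Dfn (fun v : Fin 1 → M => ∃ a' : M, ∃ r' : M,
            ZFSet.pair a'.1 r'.1 ∈ (⟨a, ha⟩ : M).1 ∧ ZFSet.pair (v 0).1 r'.1 ∈ (⟨R, hR⟩ : M).1 ∧
            FE (v 0) a' ⟨b', hbM h1⟩) := by
          (repeat' first
              | exact DT.var _ | exact DT.last | exact DT.const _ | assumption
              | refine Dfn.pairMem ?_ ?_ ?_ | refine Dfn.isPair ?_ ?_ ?_ | refine Dfn.mem ?_ ?_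
              | refine Dfn.eqv ?_ ?_ | refine Dfn.eq ?_ ?_ | refine Dfn.subset ?_ ?_
              | refine Dfn.isEmpty ?_ | refine Dfn.isTrans ?_ | refine Dfn.isOrd ?_
              | refine Dfn.isNat ?_ | refine Dfn.and ?_ ?_ | refine Dfn.or ?_ ?_
              | refine Dfn.iff ?_ ?_ | refine Dfn.not ?_ | refine Dfn.imp ?_ ?_
              | refine Dfn.all ?_ | refine Dfn.ex ?_ | exact Dfn.false')
          exact Dfn.subst3 hFE (DT.var _) (DT.var _) (DT.const _)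
        obtain ⟨q, hq, hqD⟩ := hG.gen_dfn hM hQ (D := fun w => ∃ a' : M, ∃ r' : M,
            ZFSet.pair a'.1 r'.1 ∈ (⟨a, ha⟩ : M).1 ∧ ZFSet.pair w.1 r'.1 ∈ (⟨R, hR⟩ : M).1 ∧
            FE w a' ⟨b', hbM h1⟩) hD hr (by
          intro s hs
          obtain ⟨s', h3, a', r', h4, h5, h6⟩ := (feq_nm c |>.1 hpf).2 b' p' h1 s (hs.trans hrp) (hs.trans hrp')
          refine ⟨s', h3, fun z hz => ⟨⟨a', haM h4⟩, ⟨c r', hPR.c_mem_N hM r'⟩, h4, ?_, ?_⟩⟩
          · rw [hz]; exact hPR.le_iff.2 h5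
          · exact (hFE' s' _ _ _ hz).2 h6)
        obtain ⟨a', r', h3, h4, h5⟩ := hqD ⟨c q, hPR.c_mem_N hM q⟩ rfl
        obtain ⟨q1, p1, h6, h7, h8⟩ := hPR.of_pair_mem h4
        have h7 : q = q1 := hPR.inj h7
        subst h7
        rw [h8] at h3
        rw [← (ih' h3 h1).2 ⟨q, hq, (hFE' q _ _ _ rfl).1 h5⟩]
        exact ev_mem h3 (hG.up _ hq _ h6)
  intro a b ha hb
  exact key _ a b rfl ha hb

theorem fmem_truth (hM : CTM M) (hQ : PosetIn M Q c) (hG : GenF M c G) {a b : ZFSet.{u}}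
    (ha : a ∈ M) (hb : b ∈ M) : ev c G a ∈ ev c G b ↔ ∃ p ∈ G, fmem (nm c a) (nm c b) p := by
  obtain ⟨P, R, hPR⟩ := hQ.exists_PR
  obtain ⟨FE, hFE, hFE'⟩ := exists_feqR hM hPR
  have hR := hPR.hR
  have hbM : ∀ {b' : ZFSet.{u}} {p : Q}, ZFSet.pair b' (c p) ∈ b → b' ∈ M := fun h =>
    (hM.of_pair_mem (hM.mem_of_mem hb h)).1
  constructor
  · intro h
    obtain ⟨b', p, h1, h2, h3⟩ := mem_ev.1 h
    obtain ⟨q, hq, h4⟩ := (feq_truth hM hQ hG ha (hbM h1)).1 h3.symm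
    obtain ⟨r, hr, h5, h6⟩ := hG.dir p h2 q hq
    refine ⟨r, hr, ?_⟩
    rw [fmem_nm]
    exact fun q' hq' => ⟨q', le_rfl, b', p, h1, hq'.trans h5, feq_mono (hq'.trans h6) h4⟩
  · rintro ⟨p, hp, h⟩
    rw [fmem_nm] at h
    have hD : hM.Dfn (fun v : Fin 1 → M => ∃ b' : M, ∃ r' : M,
        ZFSet.pair b'.1 r'.1 ∈ (⟨b, hb⟩ : M).1 ∧ ZFSet.pair (v 0).1 r'.1 ∈ (⟨R, hR⟩ : M).1 ∧
        FE (v 0) ⟨a, ha⟩ b') := by
      (repeat' first
          | exact DT.var _ | exact DT.last | exact DT.const _ | assumption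
          | refine Dfn.pairMem ?_ ?_ ?_ | refine Dfn.isPair ?_ ?_ ?_ | refine Dfn.mem ?_ ?_
          | refine Dfn.eqv ?_ ?_ | refine Dfn.eq ?_ ?_ | refine Dfn.subset ?_ ?_
          | refine Dfn.isEmpty ?_ | refine Dfn.isTrans ?_ | refine Dfn.isOrd ?_
          | refine Dfn.isNat ?_ | refine Dfn.and ?_ ?_ | refine Dfn.or ?_ ?_
          | refine Dfn.iff ?_ ?_ | refine Dfn.not ?_ | refine Dfn.imp ?_ ?_ | refine Dfn.all ?_
          | refine Dfn.ex ?_ | exact Dfn.false')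
      exact Dfn.subst3 hFE (DT.var _) (DT.const _) (DT.var _)
    obtain ⟨q, hq, hqD⟩ := hG.gen_dfn hM hQ (D := fun w => ∃ b' : M, ∃ r' : M,
        ZFSet.pair b'.1 r'.1 ∈ (⟨b, hb⟩ : M).1 ∧ ZFSet.pair w.1 r'.1 ∈ (⟨R, hR⟩ : M).1 ∧
        FE w ⟨a, ha⟩ b') hD hp (by
      intro s hs
      obtain ⟨s', h3, b', r', h4, h5, h6⟩ := h s hs
      refine ⟨s', h3, fun z hz => ⟨⟨b', hbM h4⟩, ⟨c r', hPR.c_mem_N hM r'⟩, h4, ?_, ?_⟩⟩
      · rw [hz]; exact hPR.le_iff.2 h5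
      · exact (hFE' s' _ _ _ hz).2 h6)
    obtain ⟨b', r', h3, h4, h5⟩ := hqD ⟨c q, hPR.c_mem_N hM q⟩ rfl
    obtain ⟨q1, p1, h6, h7, h8⟩ := hPR.of_pair_mem h4
    have h7 : q = q1 := hPR.inj h7
    subst h7
    rw [h8] at h3
    rw [(feq_truth hM hQ hG ha b'.2).2 ⟨q, hq, (hFE' q _ _ _ rfl).1 h5⟩]
    exact ev_mem h3 (hG.up _ hq _ h6)

end Pool.Agent.H17.CF
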