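import Pool.Agent.H17.CF.FX.Names

/-!
# The generic extension is a model of ZFC
-/

set_option autoImplicit false
set_option linter.unusedVariables false
set_option linter.unusedSectionVars false
set_option linter.unusedSimpArgs false

universe u v w

namespace Pool.Agent.H17.CF

open Pool.Agent.H17.Omega Name CTM

variable {Q : Type u} [Preorder Q] {M : Set ZFSet.{u}} {c : Q → ZFSet.{u}} {G : Set Q}

theorem rank_left_lt_pair (a b : ZFSet.{u}) : a.rank < (ZFSet.pair a b).rank := by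
  rw [ZFSet.pair, ZFSet.rank_pair, ZFSet.rank_singleton]
  exact lt_of_lt_of_le ((Order.lt_succ _).trans (Order.lt_succ _)) (le_max_left _ _)

theorem rank_right_lt_pair (a b : ZFSet.{u}) : b.rank < (ZFSet.pair a b).rank := by
  rw [ZFSet.pair, ZFSet.rank_pair, ZFSet.rank_pair]
  exact lt_of_lt_of_le ((Order.lt_succ _).trans_le (le_max_right _ _)) ((Order.le_succ _).trans
    (le_max_right _ _))

theorem rank_pair_lt {a b : ZFSet.{u}} {o : Ordinal.{u}} (ho : ∀ γ < o, Order.succ γ < o)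
    (ha : a.rank < o) (hb : b.rank < o) : (ZFSet.pair a b).rank < o := by
  rw [ZFSet.pair, ZFSet.rank_pair, ZFSet.rank_singleton, ZFSet.rank_pair]
  exact max_lt (ho _ (ho _ ha)) (ho _ (max_lt (ho _ ha) (ho _ hb)))

/-- Elements of the value of a name that belongs to a transitive set. -/
theorem exists_of_mem_ev {T : ZFSet.{u}} (hT : T.IsTransitive) {τ z : ZFSet.{u}} (hτ : τ ∈ T)
    (hz : z ∈ ev c G τ) : ∃ σ ∈ T, ∃ p ∈ G, ZFSet.pair σ (c p) ∈ τ ∧ z = ev c G σ := by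
  obtain ⟨σ, p, h1, h2, rfl⟩ := mem_ev.1 hz
  have h3 : ZFSet.pair σ (c p) ∈ T := hT _ hτ h1
  have h4 : ({σ, c p} : ZFSet.{u}) ∈ T := hT _ h3 (by rw [ZFSet.pair, ZFSet.mem_pair]; exact Or.inr rfl)
  exact ⟨σ, hT _ h4 (by simp), p, h2, h1, rfl⟩

theorem ext_upair (hM : CTM M) (hQ : PosetIn M Q c) (hG : GenF M c G) : ∀ x ∈ Ext M c G,
    ∀ y ∈ Ext M c G, ({x, y} : ZFSet.{u}) ∈ Ext M c G := by
  rintro _ ⟨τ, hτ, rfl⟩ _ ⟨σ, hσ, rfl⟩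
  obtain ⟨P, R, h⟩ := hQ.exists_PR
  obtain ⟨U, hU⟩ := exists_all hM h (hM.upair_mem hτ hσ)
  refine ⟨U.1, U.2, ?_⟩
  ext z
  rw [hU G hG.ne, ZFSet.mem_pair]
  constructor
  · rintro ⟨ρ, h1, rfl⟩
    rcases ZFSet.mem_pair.1 h1 with h2 | h2
    · exact Or.inl (by rw [h2])
    · exact Or.inr (by rw [h2])
  · rintro (rfl | rfl)
    · exact ⟨⟨τ, hτ⟩, by simp, rfl⟩
    · exact ⟨⟨σ, hσ⟩, by simp, rfl⟩

theorem ext_sUn (hM : CTM M) (hQ : PosetIn M Q c) (hG : GenF M c G) : ∀ x ∈ Ext M c G,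
    ZFSet.sUnion x ∈ Ext M c G := by
  rintro _ ⟨τ, hτ, rfl⟩
  obtain ⟨P, R, h⟩ := hQ.exists_PR
  obtain ⟨T, hT, htr, hτT⟩ := hM.exists_transitive hτ
  obtain ⟨U, _, hU⟩ := exists_comp hM h hQ (.ex 1 (.and (.mem 1 2) (.mem 0 1))) 0 (fun _ => ⟨τ, hτ⟩) hT
  refine ⟨U.1, U.2, ?_⟩
  ext z
  rw [hU G hG, ZFSet.mem_sUnion]
  constructor
  · rintro ⟨ρ, h1, rfl, y, h2, h3⟩
    exact ⟨y.1, h2, h3⟩
  · rintro ⟨y, h1, h2⟩
    obtain ⟨σ, h3, p, hp, h4, rfl⟩ := exists_of_mem_ev htr hτT h1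
    obtain ⟨ρ, h5, q, hq, h6, rfl⟩ := exists_of_mem_ev htr h3 h2
    have hσ := hM.mem_of_mem hT h3
    have hρ := hM.mem_of_mem hT h5
    exact ⟨⟨ρ, hρ⟩, h5, rfl, evE M c G ⟨σ, hσ⟩, h1, h2⟩

theorem ext_pow (hM : CTM M) (hQ : PosetIn M Q c) (hG : GenF M c G) : ∀ x ∈ Ext M c G,
    ∃ p ∈ Ext M c G, ∀ z ∈ Ext M c G, z ⊆ x → z ∈ p := by
  rintro _ ⟨τ, hτ, rfl⟩
  obtain ⟨P, R, h⟩ := hQ.exists_PR
  obtain ⟨T, hT, htr, hτT⟩ := hM.exists_transitive hτ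
  obtain ⟨S, hS, hS'⟩ := hM.exists_pow (hM.prod_mem hT h.hP)
  obtain ⟨U, hU⟩ := exists_all hM h hS
  refine ⟨ev c G U.1, ⟨U.1, U.2, rfl⟩, ?_⟩
  rintro _ ⟨ν, hν, rfl⟩ hsub
  rw [hU G hG.ne]
  obtain ⟨W, hW1, hW⟩ := exists_comp hM h hQ (.mem 0 1) 0 (fun _ => ⟨ν, hν⟩) hT
  refine ⟨W, (hS' _).2 ⟨W.2, hW1⟩, ?_⟩
  ext z
  rw [hW G hG]
  constructor
  · intro hz
    obtain ⟨σ, h3, p, hp, h4, rfl⟩ := exists_of_mem_ev htr hτT (hsub hz)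
    exact ⟨⟨σ, hM.mem_of_mem hT h3⟩, h3, rfl, hz⟩
  · rintro ⟨σ, _, rfl, h1⟩
    exact h1

theorem ext_sep (hM : CTM M) (hQ : PosetIn M Q c) (hG : GenF M c G) (φ : Fml) (k : ℕ)
    (f : ℕ → Ext M c G) (a : Ext M c G) : ∃ b : Ext M c G, ∀ z : Ext M c G,
    z.1 ∈ b.1 ↔ z.1 ∈ a.1 ∧ Sat (SMem (Ext M c G)) φ (upd f k z) := by
  obtain ⟨P, R, h⟩ := hQ.exists_PR
  choose g hg using fun i => evE_surj (f i)
  obtain ⟨τ, rfl⟩ := evE_surj a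
  obtain ⟨T, hT, htr, hτT⟩ := hM.exists_transitive τ.2
  obtain ⟨n, hn1, hn2⟩ : ∃ n, φ.bd ≤ n ∧ n ≠ k := ⟨max φ.bd (k + 1), le_max_left _ _, by
    have := le_max_right φ.bd (k + 1); omega⟩
  obtain ⟨U, _, hU⟩ := exists_comp hM h hQ (.and (.mem k n) φ) k (upd g n τ) hT
  have key : ∀ σ : M, Sat (SMem (Ext M c G)) (.and (.mem k n) φ)
      (upd (fun i => evE M c G (upd g n τ i)) k (evE M c G σ)) ↔
      (ev c G σ.1 ∈ ev c G τ.1 ∧ Sat (SMem (Ext M c G)) φ (upd f k (evE M c G σ))) := by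
    intro σ
    have e1 : upd (fun i => evE M c G (upd g n τ i)) k (evE M c G σ) k = evE M c G σ := upd_same _ _ _
    have e2 : upd (fun i => evE M c G (upd g n τ i)) k (evE M c G σ) n = evE M c G τ := by
      rw [upd_ne _ _ hn2, upd_same]
    have e3 : Sat (SMem (Ext M c G)) φ (upd (fun i => evE M c G (upd g n τ i)) k (evE M c G σ)) ↔
        Sat (SMem (Ext M c G)) φ (upd f k (evE M c G σ)) := by
      refine Sat.congr fun i hi => ?_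
      by_cases hik : i = k
      · subst hik; rw [upd_same, upd_same]
      · rw [upd_ne _ _ hik, upd_ne _ _ hik, upd_ne _ _ (by omega), hg]
    simp only [Sat, e1, e2, e3]
    rfl
  refine ⟨evE M c G U, fun z => ?_⟩
  show z.1 ∈ ev c G U.1 ↔ _
  rw [hU G hG]
  constructor
  · rintro ⟨σ, h1, h2, h3⟩
    rw [key] at h3
    have : z = evE M c G σ := Subtype.ext h2
    rw [this]
    exact h3
  · rintro ⟨h1, h2⟩
    obtain ⟨σ, h3, p, hp, h4, h5⟩ := exists_of_mem_ev htr hτT h1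
    have hσ := hM.mem_of_mem hT h3
    have : z = evE M c G ⟨σ, hσ⟩ := Subtype.ext h5
    refine ⟨⟨σ, hσ⟩, h3, h5, (key _).2 ?_⟩
    rw [this] at h1 h2
    exact ⟨h1, h2⟩

theorem ext_coll (hM : CTM M) (hQ : PosetIn M Q c) (hG : GenF M c G) (φ : Fml)
    (f : ℕ → Ext M c G) (a : Ext M c G) : ∃ b : Ext M c G, ∀ x : Ext M c G, x.1 ∈ a.1 →
    (∃ y : Ext M c G, Sat (SMem (Ext M c G)) φ (upd (upd f 0 x) 1 y)) →
    ∃ y : Ext M c G, y.1 ∈ b.1 ∧ Sat (SMem (Ext M c G)) φ (upd (upd f 0 x) 1 y) := by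
  obtain ⟨P, R, h⟩ := hQ.exists_PR
  choose g hg using fun i => evE_surj (f i)
  obtain ⟨τ, rfl⟩ := evE_surj a
  -- `Φ z w`: if `z = (σ, c p)` and some name `ρ` satisfies the formula then `w` does
  let B : M → M → M → Prop := fun x y w => ∃ p, c p = y.1 ∧ Fc M c φ (upd (upd g 0 x) 1 w) p
  have hB : hM.Dfn (fun v : Fin 3 → M => B (v 0) (v 1) (v 2)) :=
    Fc.dfn hM h φ (fun v : Fin 3 → M => v 1) (fun v => upd (upd g 0 (v 0)) 1 (v 2)) (DT.var _)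
      (DT_upd (DT_upd (g := fun _ => g) (fun i => DT.const _) 0 (DT.var 0)) 1 (DT.var 2))
  let Φ : M → M → Prop := fun z w => ∀ x y : M, z.1 = ZFSet.pair x.1 y.1 → (∃ r : M, B x y r) → B x y w
  have hΦ : hM.Dfn (fun v : Fin 2 → M => Φ (v 0) (v 1)) := by
    refine Dfn.all (Dfn.all (Dfn.imp ?_ (Dfn.imp (Dfn.ex ?_) ?_)))
    · (repeat' first
          | exact DT.var _ | exact DT.last | exact DT.const _ | assumption
          | refine Dfn.pairMem ?_ ?_ ?_ | refine Dfn.isPair ?_ ?_ ?_ | refine Dfn.mem ?_ ?_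
          | refine Dfn.eqv ?_ ?_ | refine Dfn.eq ?_ ?_ | refine Dfn.subset ?_ ?_
          | refine Dfn.isEmpty ?_ | refine Dfn.isTrans ?_ | refine Dfn.isOrd ?_
          | refine Dfn.isNat ?_ | refine Dfn.and ?_ ?_ | refine Dfn.or ?_ ?_
          | refine Dfn.iff ?_ ?_ | refine Dfn.not ?_ | refine Dfn.imp ?_ ?_ | refine Dfn.all ?_
          | refine Dfn.ex ?_ | exact Dfn.false')
    · exact Dfn.subst3 hB (DT.var _) (DT.var _) (DT.var _)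
    · exact Dfn.subst3 hB (DT.var _) (DT.var _) (DT.var _)
  have htot : ∀ z, ∃ w, Φ z w := by
    intro z
    by_cases h1 : ∃ x y : M, z.1 = ZFSet.pair x.1 y.1 ∧ ∃ r : M, B x y r
    · obtain ⟨x, y, h2, r, h3⟩ := h1
      refine ⟨r, fun x' y' h4 _ => ?_⟩
      rw [h2, ZFSet.pair_inj] at h4
      rw [← Subtype.ext h4.1, ← Subtype.ext h4.2]
      exact h3
    · exact ⟨z, fun x y h2 h3 => (h1 ⟨x, y, h2, h3⟩).elim⟩
  have hx0 : ZFSet.pair τ.1 P ∈ M := hM.pair_mem τ.2 h.hP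
  obtain ⟨o, ho, h1, h2, h3⟩ := hM.exists_closed hΦ htot ⟨_, hx0⟩
  obtain ⟨T, hT, hT'⟩ := hM.exists_level o ho
  obtain ⟨U, hU⟩ := exists_all hM h hT
  have hrτ : τ.1.rank < o := (rank_left_lt_pair _ _).trans h1
  have hrP : P.rank < o := (rank_right_lt_pair _ _).trans h1
  refine ⟨evE M c G U, fun x hx hy => ?_⟩
  obtain ⟨σ, p0, h4, h5, h6⟩ := mem_ev.1 hx
  have hσ : σ ∈ M := (hM.of_pair_mem (hM.mem_of_mem τ.2 h4)).1
  have hxσ : x = evE M c G ⟨σ, hσ⟩ := Subtype.ext h6.symm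
  obtain ⟨y, hy⟩ := hy
  obtain ⟨ρ, rfl⟩ := evE_surj y
  have hs : ∀ σ ρ : M, (fun i => evE M c G (upd (upd g 0 σ) 1 ρ i)) =
      upd (upd f 0 (evE M c G σ)) 1 (evE M c G ρ) := by
    intro σ ρ
    have h8 : (fun i => evE M c G (g i)) = f := funext hg
    have h9 := upd_comp (evE M c G) (upd g 0 σ) 1 ρ
    have h10 := upd_comp (evE M c G) g 0 σ
    rw [h9, h10, h8]
  rw [hxσ, ← hs, truth hM hQ hG] at hy
  obtain ⟨p, hp, h7⟩ := hy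
  have hcp := h.c_mem_N hM p
  have hz : ZFSet.pair σ (c p) ∈ M := hM.pair_mem hσ hcp
  have hrz : (ZFSet.pair σ (c p)).rank < o :=
    rank_pair_lt h2 ((rank_fst_lt h4).trans hrτ) ((ZFSet.rank_lt_of_mem (h.c_mem_P p)).trans hrP)
  obtain ⟨w, hw, hw'⟩ := h3 ⟨_, hz⟩ hrz
  obtain ⟨p', h8, h9⟩ := hw' ⟨σ, hσ⟩ ⟨c p, hcp⟩ rfl ⟨ρ, p, rfl, h7⟩
  have h8 := h.inj h8
  subst h8
  refine ⟨evE M c G w, ?_, ?_⟩
  · show ev c G w.1 ∈ ev c G U.1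
    rw [hU G hG.ne]
    exact ⟨w, (hT' _).2 ⟨w.2, hw⟩, rfl⟩
  · rw [hxσ, ← hs, truth hM hQ hG]
    exact ⟨p', hp, h9⟩

open Pool.Agent.H52.OM in
theorem ext_ac (hM : CTM M) (hQ : PosetIn M Q c) (hG : GenF M c G) : ∀ x ∈ Ext M c G,
    (∀ y ∈ x, y ≠ ∅) → (∀ y ∈ x, ∀ z ∈ x, ∀ w, w ∈ y → w ∈ z → y = z) →
    ∃ t ∈ Ext M c G, ∀ y ∈ x, ∃ z, ∀ w, (w ∈ y ∧ w ∈ t) ↔ w = z := by
  rintro _ ⟨τ, hτ, rfl⟩ hne hdis
  obtain ⟨P, R, h⟩ := hQ.exists_PR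
  have hR := h.hR
  obtain ⟨T, hT, htr, hτT⟩ := hM.exists_transitive hτ
  obtain ⟨w, hw, hwT⟩ := exists_WOn hM hT
  have hTw : T ⊆ fld w := fun z hz => hwT.tr _ hwT.mem hz
  let g : ℕ → M := fun _ => ⟨τ, hτ⟩
  let φ0 : Fml := .ex 1 (.and (.mem 1 2) (.mem 0 1))
  let φ1 : Fml := .ex 1 (.and (.mem 1 2) (.and (.mem 0 1) (.mem 3 1)))
  let A : M → M → Prop := fun σ y => ∃ p, c p = y.1 ∧ Fc M c φ0 (upd g 0 σ) p
  let C : M → M → M → Prop := fun σ σ' y => ∃ p, c p = y.1 ∧ Fc M c φ1 (upd (upd g 0 σ) 3 σ') p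
  have hA : hM.Dfn (fun v : Fin 2 → M => A (v 0) (v 1)) :=
    Fc.dfn hM h φ0 (fun v : Fin 2 → M => v 1) (fun v => upd g 0 (v 0)) (DT.var _)
      (DT_upd (g := fun _ => g) (fun i => DT.const _) 0 (DT.var 0))
  have hC : hM.Dfn (fun v : Fin 3 → M => C (v 0) (v 1) (v 2)) :=
    Fc.dfn hM h φ1 (fun v : Fin 3 → M => v 2) (fun v => upd (upd g 0 (v 0)) 3 (v 1)) (DT.var _)
      (DT_upd (DT_upd (g := fun _ => g) (fun i => DT.const _) 0 (DT.var 0)) 3 (DT.var 1))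
  have hAG : ∀ σ : M, (∃ p ∈ G, A σ ⟨c p, h.c_mem_N hM p⟩) ↔
      ∃ y ∈ ev c G τ, ev c G σ.1 ∈ y := by
    intro σ
    have h1 := truth hM hQ hG φ0 (upd g 0 σ)
    have h2 : Sat (SMem (Ext M c G)) φ0 (fun i => evE M c G (upd g 0 σ i)) ↔
        ∃ y ∈ ev c G τ, ev c G σ.1 ∈ y := by
      constructor
      · rintro ⟨y, h3, h4⟩
        exact ⟨y.1, h3, h4⟩
      · rintro ⟨y, h3, h4⟩
        exact ⟨⟨y, Ext_trans hM ⟨τ, hτ, rfl⟩ h3⟩, h3, h4⟩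
    rw [← h2, h1]
    constructor
    · rintro ⟨p, hp, q, hq, h3⟩
      have hq : q = p := h.inj hq
      subst hq
      exact ⟨q, hp, h3⟩
    · rintro ⟨p, hp, h3⟩
      exact ⟨p, hp, p, rfl, h3⟩
  have hCG : ∀ σ σ' : M, (∃ p ∈ G, C σ σ' ⟨c p, h.c_mem_N hM p⟩) ↔
      ∃ y ∈ ev c G τ, ev c G σ.1 ∈ y ∧ ev c G σ'.1 ∈ y := by
    intro σ σ'
    have h1 := truth hM hQ hG φ1 (upd (upd g 0 σ) 3 σ')
    have h2 : Sat (SMem (Ext M c G)) φ1 (fun i => evE M c G (upd (upd g 0 σ) 3 σ' i)) ↔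
        ∃ y ∈ ev c G τ, ev c G σ.1 ∈ y ∧ ev c G σ'.1 ∈ y := by
      constructor
      · rintro ⟨y, h3, h4, h5⟩
        exact ⟨y.1, h3, h4, h5⟩
      · rintro ⟨y, h3, h4, h5⟩
        exact ⟨⟨y, Ext_trans hM ⟨τ, hτ, rfl⟩ h3⟩, h3, h4, h5⟩
    rw [← h2, h1]
    constructor
    · rintro ⟨p, hp, q, hq, h3⟩
      have hq : q = p := h.inj hq
      subst hq
      exact ⟨q, hp, h3⟩
    · rintro ⟨p, hp, h3⟩
      exact ⟨p, hp, p, rfl, h3⟩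
  -- the name of the transversal
  let B : M → M → Prop := fun σ y => A σ y ∧ ∀ σ' : M, σ'.1 ∈ (⟨T, hT⟩ : M).1 →
    ZFSet.pair σ'.1 σ.1 ∈ (⟨w, hw⟩ : M).1 → ¬ σ' = σ → ∀ r : M,
    ZFSet.pair r.1 y.1 ∈ (⟨R, hR⟩ : M).1 → ¬ C σ σ' r
  have hB : hM.Dfn (fun v : Fin 2 → M => B (v 0) (v 1)) := by
    refine Dfn.and hA ?_
    (repeat' first
        | exact DT.var _ | exact DT.last | exact DT.const _ | assumption
        | refine Dfn.pairMem ?_ ?_ ?_ | refine Dfn.isPair ?_ ?_ ?_ | refine Dfn.mem ?_ ?_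
        | refine Dfn.eqv ?_ ?_ | refine Dfn.eq ?_ ?_ | refine Dfn.subset ?_ ?_
        | refine Dfn.isEmpty ?_ | refine Dfn.isTrans ?_ | refine Dfn.isOrd ?_
        | refine Dfn.isNat ?_ | refine Dfn.and ?_ ?_ | refine Dfn.or ?_ ?_ | refine Dfn.iff ?_ ?_
        | refine Dfn.not ?_ | refine Dfn.imp ?_ ?_ | refine Dfn.all ?_ | refine Dfn.ex ?_
        | exact Dfn.false')
    exact Dfn.subst3 hC (DT.var _) (DT.var _) (DT.var _)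
  obtain ⟨U, hU, hU1, hU2⟩ := exists_name hM h hT hB
  refine ⟨ev c G U, ⟨U, hU, rfl⟩, fun y hy => ?_⟩
  -- the least name of an element of `y`
  have hS : ∃ σ0 : M, σ0.1 ∈ T ∧ ev c G σ0.1 ∈ y ∧ ∀ σ : M, σ.1 ∈ T → ev c G σ.1 ∈ y →
      ZFSet.pair σ0.1 σ.1 ∈ w := by
    obtain ⟨τ', h3, p, hp, h4, h5⟩ := exists_of_mem_ev htr hτT hy
    have hne' : ZFSet.sep (fun z => ev c G z ∈ y) T ≠ ∅ := by
      intro h0
      apply hne y hy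
      rw [ZFSet.eq_empty]
      intro z hz
      rw [h5] at hz
      obtain ⟨ρ, h6, q, hq, h7, h8⟩ := exists_of_mem_ev htr h3 hz
      have : ρ ∈ ZFSet.sep (fun z => ev c G z ∈ y) T := by
        rw [ZFSet.mem_sep]
        exact ⟨h6, by rw [← h8, h5]; exact hz⟩
      rw [h0] at this
      exact ZFSet.notMem_empty _ this
    obtain ⟨m, hm, hm'⟩ := hwT.wo.min _ (fun z hz => hTw (ZFSet.mem_sep.1 hz).1) hne'
    rw [ZFSet.mem_sep] at hm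
    exact ⟨⟨m, hM.mem_of_mem hT hm.1⟩, hm.1, hm.2, fun σ h6 h7 => hm' _ (ZFSet.mem_sep.2 ⟨h6, h7⟩)⟩
  obtain ⟨σ0, h0T, h0y, h0m⟩ := hS
  have hyE : y ∈ Ext M c G := Ext_trans hM ⟨τ, hτ, rfl⟩ hy
  refine ⟨ev c G σ0.1, fun z => ?_⟩
  constructor
  · rintro ⟨hz1, hz2⟩
    obtain ⟨σ, p, h1, h2, rfl⟩ := mem_ev.1 hz2
    have hσ : σ ∈ M := (hM.of_pair_mem (hM.mem_of_mem hU h1)).1
    obtain ⟨h3, h4, h5⟩ := (hU2 ⟨σ, hσ⟩ p).1 h1
    by_contra hne2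
    have hne3 : ¬ σ0 = ⟨σ, hσ⟩ := fun h6 => hne2 (by rw [h6])
    obtain ⟨q, hq, q', hq', h6⟩ := (hCG ⟨σ, hσ⟩ σ0).2 ⟨y, hy, hz1, h0y⟩
    obtain ⟨r, hr, h7, h8⟩ := hG.dir p h2 q hq
    have hq'' : q' = q := h.inj hq'
    subst hq''
    exact h5 σ0 h0T (h0m ⟨σ, hσ⟩ h3 hz1) hne3 ⟨c r, h.c_mem_N hM r⟩ (h.le_iff.2 h7)
      ⟨r, rfl, Fc.mono h8 h6⟩
  · rintro rfl
    refine ⟨h0y, ?_⟩
    obtain ⟨pA, hpA, hA0⟩ := (hAG σ0).2 ⟨y, hy, h0y⟩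
    let D : M → Prop := fun r => B σ0 r ∨ (∃ σ' : M, σ'.1 ∈ (⟨T, hT⟩ : M).1 ∧
      ZFSet.pair σ'.1 σ0.1 ∈ (⟨w, hw⟩ : M).1 ∧ ¬ σ' = σ0 ∧ C σ0 σ' r) ∨
      ∀ s : M, ZFSet.pair s.1 r.1 ∈ (⟨R, hR⟩ : M).1 → ¬ A σ0 s
    have hD : hM.Dfn (fun v : Fin 1 → M => D (v 0)) := by
      refine Dfn.or (Dfn.subst2 hB (DT.const _) (DT.var _)) ?_
      (repeat' first
          | exact DT.var _ | exact DT.last | exact DT.const _ | assumption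
          | refine Dfn.pairMem ?_ ?_ ?_ | refine Dfn.isPair ?_ ?_ ?_ | refine Dfn.mem ?_ ?_
          | refine Dfn.eqv ?_ ?_ | refine Dfn.eq ?_ ?_ | refine Dfn.subset ?_ ?_
          | refine Dfn.isEmpty ?_ | refine Dfn.isTrans ?_ | refine Dfn.isOrd ?_
          | refine Dfn.isNat ?_ | refine Dfn.and ?_ ?_ | refine Dfn.or ?_ ?_
          | refine Dfn.iff ?_ ?_ | refine Dfn.not ?_ | refine Dfn.imp ?_ ?_ | refine Dfn.all ?_
          | refine Dfn.ex ?_ | exact Dfn.false')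
      · exact Dfn.subst3 hC (DT.const _) (DT.var _) (DT.var _)
      · exact Dfn.subst2 hA (DT.const _) (DT.var _)
    obtain ⟨q, hq, hqD⟩ := hG.gen_dfn hM hQ hD hpA (by
      intro r hr
      by_cases h1 : ∃ q ≤ r, ∃ σ' : M, σ'.1 ∈ T ∧ ZFSet.pair σ'.1 σ0.1 ∈ w ∧ ¬ σ' = σ0 ∧
          C σ0 σ' ⟨c q, h.c_mem_N hM q⟩
      · obtain ⟨q, hq, σ', h2, h3, h4, h5⟩ := h1
        refine ⟨q, hq, fun z hz => Or.inr (Or.inl ⟨σ', h2, h3, h4, ?_⟩)⟩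
        have : z = ⟨c q, h.c_mem_N hM q⟩ := Subtype.ext hz
        rw [this]; exact h5
      · push Not at h1
        refine ⟨r, le_rfl, fun z hz => Or.inl ⟨?_, fun σ' h2 h3 h4 s hs h5 => ?_⟩⟩
        · obtain ⟨p', hp', h6⟩ := hA0
          have hp'' : p' = pA := h.inj hp'
          subst hp''
          exact ⟨r, hz.symm, Fc.mono hr h6⟩
        · obtain ⟨q, hq, h6⟩ := id h5
          rw [← hq, hz] at hs
          refine h1 q (h.le_iff.1 hs) σ' h2 h3 h4 ⟨q, rfl, h6⟩)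
    rcases hqD ⟨c q, h.c_mem_N hM q⟩ rfl with h1 | ⟨σ', h2, h3, h4, h5⟩ | h1
    · exact ev_mem ((hU2 σ0 q).2 ⟨h0T, h1⟩) hq
    · exfalso
      obtain ⟨y', hy', h6, h7⟩ := (hCG σ0 σ').1 ⟨q, hq, h5⟩
      have : y' = y := hdis y' hy' y hy _ h6 h0y
      rw [this] at h7
      exact h4 (Subtype.ext (hwT.wo.anti _ _ h3 (h0m σ' h2 h7)))
    · exfalso
      obtain ⟨p', hp', h6⟩ := hA0
      have hp'' : p' = pA := h.inj hp'
      subst hp''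
      obtain ⟨r, hr, h7, h8⟩ := hG.dir q hq p' hpA
      exact h1 ⟨c r, h.c_mem_N hM r⟩ (h.le_iff.2 h7) ⟨r, rfl, Fc.mono h8 h6⟩

/-- The generic extension is a countable transitive model of ZFC. -/
theorem ctm_Ext (hM : CTM M) (hQ : PosetIn M Q c) (hG : GenF M c G) : CTM (Ext M c G) :=
  Pool.Agent.H52.GX.Cl.ctm
    { ne := by
        obtain ⟨x, hx⟩ := hM.nonempty
        exact ⟨_, x, hx, rfl⟩
      ctb := Ext_countable hM
      tr := fun x hx y hy => Ext_trans hM hx hy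
      upair := ext_upair hM hQ hG
      sUn := ext_sUn hM hQ hG
      pow := ext_pow hM hQ hG
      inf := subset_Ext hM hQ hG.ne hM.omZ_mem
      sep := ext_sep hM hQ hG
      coll := ext_coll hM hQ hG
      ac := ext_ac hM hQ hG }

end Pool.Agent.H17.CF
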