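import Pool.Agent.H17.CF.FX.Min
import Pool.Agent.H52.GC.Fin

/-!
# Generic extensions by preorders, in terms of sets of codes
-/

set_option autoImplicit false
set_option linter.unusedVariables false
set_option linter.unusedSectionVars false
set_option linter.unusedSimpArgs false

universe u

open Pool.Agent.H17.Omega Pool.Agent.H17.Omega.CTM Pool.Agent.H52.GC

namespace Pool.Agent.H17.CF

/-- the value of the name `τ` with respect to a set `g` of conditions: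
`evZ g τ = {evZ g σ : (σ, p) ∈ τ, p ∈ g}` -/
noncomputable def evZ (g : Set ZFSet.{u}) (τ : ZFSet.{u}) : ZFSet.{u} :=
  ZFSet.range (fun i : Shrink.{u} {z : {z : ZFSet.{u} // z ∈ τ} // ∃ σ p, z.1 = ZFSet.pair σ p ∧ p ∈ g} =>
    evZ g (((equivShrink _).symm i).2.choose))
termination_by τ.rank
decreasing_by
  have h := ((equivShrink _).symm i).2.choose_spec.choose_spec
  have h2 := ((equivShrink _).symm i).1.2
  rw [h.1] at h2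
  exact rank_fst_lt h2

/-- the extension `M[g]` -/
def ExtZ (M g : Set ZFSet.{u}) : Set ZFSet.{u} := evZ g '' M

/-- `P`, `R` is a preorder (`R` is the set of the pairs `(p, q)` with `p ≤ q`) -/
structure Pre (P R : ZFSet.{u}) : Prop where
  rel : ∀ z ∈ R, ∃ a ∈ P, ∃ b ∈ P, z = ZFSet.pair a b
  refl : ∀ a ∈ P, ZFSet.pair a a ∈ R
  trans : ∀ a b d, ZFSet.pair a b ∈ R → ZFSet.pair b d ∈ R → ZFSet.pair a d ∈ R

/-- `g` is a filter of `P`, `R` that meets every dense set in `M` -/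
structure GenZ (M : Set ZFSet.{u}) (P R : ZFSet.{u}) (g : Set ZFSet.{u}) : Prop where
  sub : ∀ p ∈ g, p ∈ P
  ne : g.Nonempty
  up : ∀ p ∈ g, ∀ q, ZFSet.pair p q ∈ R → q ∈ g
  dir : ∀ p ∈ g, ∀ q ∈ g, ∃ r ∈ g, ZFSet.pair r p ∈ R ∧ ZFSet.pair r q ∈ R
  gen : ∀ D ∈ M, (∀ p ∈ P, ∃ q ∈ D, ZFSet.pair q p ∈ R) → ∃ p ∈ g, p ∈ D

theorem mem_evZ {g : Set ZFSet.{u}} {τ z : ZFSet.{u}} :
    z ∈ evZ g τ ↔ ∃ σ p, ZFSet.pair σ p ∈ τ ∧ p ∈ g ∧ z = evZ g σ := by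
  rw [evZ, ZFSet.mem_range]
  constructor
  · rintro ⟨i, rfl⟩
    have h := ((equivShrink _).symm i).2.choose_spec.choose_spec
    have h2 := ((equivShrink _).symm i).1.2
    rw [h.1] at h2
    exact ⟨_, _, h2, h.2, rfl⟩
  · rintro ⟨σ, p, h1, h2, rfl⟩
    let x : {z : {z : ZFSet.{u} // z ∈ τ} // ∃ σ p, z.1 = ZFSet.pair σ p ∧ p ∈ g} :=
      ⟨⟨ZFSet.pair σ p, h1⟩, σ, p, rfl, h2⟩
    refine ⟨equivShrink _ x, ?_⟩
    have e : (equivShrink {z : {z : ZFSet.{u} // z ∈ τ} // ∃ σ p, z.1 = ZFSet.pair σ p ∧ p ∈ g}).symm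
        (equivShrink _ x) = x := Equiv.symm_apply_apply _ _
    have key : ∀ y : {z : {z : ZFSet.{u} // z ∈ τ} // ∃ σ p, z.1 = ZFSet.pair σ p ∧ p ∈ g}, y = x →
        y.2.choose = σ := by
      rintro y rfl
      have h := x.2.choose_spec.choose_spec
      exact (ZFSet.pair_inj.1 h.1).1.symm
    rw [key _ e]

theorem evZ_eq {Q : Type u} (c : Q → ZFSet.{u}) {G : Set Q} {g : Set ZFSet.{u}}
    (hg : ∀ z, z ∈ g ↔ ∃ q ∈ G, z = c q) : ∀ τ, evZ g τ = ev c G τ := by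
  intro τ
  have key : ∀ (o : Ordinal.{u}) (τ : ZFSet.{u}), τ.rank = o → evZ g τ = ev c G τ := by
    intro o
    induction o using WellFoundedLT.induction with
    | ind o ih =>
    intro τ ho
    ext z
    rw [mem_evZ, mem_ev]
    constructor
    · rintro ⟨σ, p, h1, h2, rfl⟩
      obtain ⟨q, hq, rfl⟩ := (hg p).1 h2
      exact ⟨σ, q, h1, hq, (ih _ (by rw [← ho]; exact rank_fst_lt h1) σ rfl).symm⟩
    · rintro ⟨σ, q, h1, hq, rfl⟩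
      exact ⟨σ, c q, h1, (hg _).2 ⟨q, hq, rfl⟩, (ih _ (by rw [← ho]; exact rank_fst_lt h1) σ rfl).symm⟩
  exact key _ τ rfl

theorem ExtZ_eq {Q : Type u} (c : Q → ZFSet.{u}) {G : Set Q} {g : Set ZFSet.{u}}
    (hg : ∀ z, z ∈ g ↔ ∃ q ∈ G, z = c q) (M : Set ZFSet.{u}) : ExtZ M g = Ext M c G := by
  have : evZ g = ev c G := funext (evZ_eq c hg)
  rw [ExtZ, Ext, this]

/-- A preorder of `M` with a generic filter. -/
structure Fr (M : Set ZFSet.{u}) (P R : ZFSet.{u}) (g : Set ZFSet.{u}) : Prop where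
  hM : CTM M
  hP : P ∈ M
  hR : R ∈ M
  po : Pre P R
  gen : GenZ M P R g

variable {M : Set ZFSet.{u}} {P R : ZFSet.{u}} {g : Set ZFSet.{u}}

theorem Pre.mem {P R : ZFSet.{u}} (h : Pre P R) {a b : ZFSet.{u}} (hab : ZFSet.pair a b ∈ R) : a ∈ P ∧ b ∈ P := by
  obtain ⟨a', ha, b', hb, h1⟩ := h.rel _ hab
  rw [ZFSet.pair_inj] at h1
  rw [h1.1, h1.2]; exact ⟨ha, hb⟩

/-- The preorder as a type. -/
theorem Pre.exists_Q (h : Pre P R) (hP : P ∈ M) (hR : R ∈ M) : ∃ (Q : Type u) (_ : Preorder Q)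
    (c : Q → ZFSet.{u}), PosetIn M Q c ∧ (∀ z, z ∈ P ↔ ∃ q, z = c q) ∧
    ∀ p q, p ≤ q ↔ ZFSet.pair (c p) (c q) ∈ R :=
  exists_poset hP hR h.rel h.refl h.trans

/-- Generic filters exist. -/
theorem exists_genZ (hM : CTM M) (hP : P ∈ M) (hR : R ∈ M) (po : Pre P R) {p : ZFSet.{u}} (hp : p ∈ P) :
    ∃ g, Fr M P R g ∧ p ∈ g := by
  obtain ⟨Q, inst, c, hQ, hc, hle⟩ := po.exists_Q hP hR
  obtain ⟨q0, rfl⟩ := (hc p).1 hp
  obtain ⟨G, hG, hq0⟩ := exists_genF hM.countable c q0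
  refine ⟨c '' G, ⟨hM, hP, hR, po, ?_, ?_, ?_, ?_, ?_⟩, ⟨q0, hq0, rfl⟩⟩
  · rintro _ ⟨q, hq, rfl⟩; exact (hc _).2 ⟨q, rfl⟩
  · exact hG.ne.image _
  · rintro _ ⟨q, hq, rfl⟩ r hr
    obtain ⟨r', rfl⟩ := (hc r).1 (po.mem hr).2
    exact ⟨r', hG.up q hq r' ((hle _ _).2 hr), rfl⟩
  · rintro _ ⟨q, hq, rfl⟩ _ ⟨q', hq', rfl⟩
    obtain ⟨r, hr, h1, h2⟩ := hG.dir q hq q' hq'
    exact ⟨c r, ⟨r, hr, rfl⟩, (hle _ _).1 h1, (hle _ _).1 h2⟩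
  · intro D hD hd
    obtain ⟨q, hq, hqD⟩ := hG.gen D hD (by
      intro q
      obtain ⟨r, hr, h1⟩ := hd (c q) ((hc _).2 ⟨q, rfl⟩)
      obtain ⟨r', rfl⟩ := (hc r).1 (po.mem h1).1
      exact ⟨r', (hle _ _).2 h1, hr⟩)
    exact ⟨c q, ⟨q, hq, rfl⟩, hqD⟩

namespace Fr

theorem exists_Q (h : Fr M P R g) : ∃ (Q : Type u) (_ : Preorder Q) (c : Q → ZFSet.{u}) (G : Set Q),
    PosetIn M Q c ∧ GenF M c G ∧ (∀ z, z ∈ P ↔ ∃ q, z = c q) ∧ (∀ p q, p ≤ q ↔ ZFSet.pair (c p) (c q) ∈ R) ∧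
    (∀ z, z ∈ g ↔ ∃ q ∈ G, z = c q) ∧ ExtZ M g = Ext M c G := by
  obtain ⟨Q, inst, c, hQ, hc, hle⟩ := h.po.exists_Q h.hP h.hR
  have hg : ∀ z, z ∈ g ↔ ∃ q ∈ {q | c q ∈ g}, z = c q := by
    intro z
    constructor
    · intro hz
      obtain ⟨q, rfl⟩ := (hc z).1 (h.gen.sub z hz)
      exact ⟨q, hz, rfl⟩
    · rintro ⟨q, hq, rfl⟩; exact hq
  refine ⟨Q, inst, c, {q | c q ∈ g}, hQ, ⟨?_, ?_, ?_, ?_⟩, hc, hle, hg, ExtZ_eq c hg M⟩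
  · obtain ⟨z, hz⟩ := h.gen.ne
    obtain ⟨q, hq, _⟩ := (hg z).1 hz
    exact ⟨q, hq⟩
  · intro p hp q hpq
    exact h.gen.up _ hp _ ((hle p q).1 hpq)
  · intro p hp q hq
    obtain ⟨r, hr, h1, h2⟩ := h.gen.dir _ hp _ hq
    obtain ⟨r', hr', rfl⟩ := (hg r).1 hr
    exact ⟨r', hr', (hle _ _).2 h1, (hle _ _).2 h2⟩
  · intro D hD hd
    obtain ⟨p, hp, hpD⟩ := h.gen.gen D hD (by
      intro p hp
      obtain ⟨p', rfl⟩ := (hc p).1 hp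
      obtain ⟨q, hq, hqD⟩ := hd p'
      exact ⟨c q, hqD, (hle _ _).1 hq⟩)
    obtain ⟨p', hp', rfl⟩ := (hg p).1 hp
    exact ⟨p', hp', hpD⟩

theorem ctm (h : Fr M P R g) : CTM (ExtZ M g) := by
  obtain ⟨Q, inst, c, G, hQ, hG, hc, hle, hg, he⟩ := h.exists_Q
  rw [he]; exact ctm_Ext h.hM hQ hG

theorem sub (h : Fr M P R g) : M ⊆ ExtZ M g := by
  obtain ⟨Q, inst, c, G, hQ, hG, hc, hle, hg, he⟩ := h.exists_Q
  rw [he]; exact subset_Ext h.hM hQ hG.ne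

theorem mem_g (h : Fr M P R g) : ∃ γ ∈ ExtZ M g, ∀ z, z ∈ γ ↔ z ∈ g := by
  obtain ⟨Q, inst, c, G, hQ, hG, hc, hle, hg, he⟩ := h.exists_Q
  rw [he]
  obtain ⟨γ, hγ, hγ'⟩ := gset_mem h.hM hQ hG.ne
  exact ⟨γ, hγ, fun z => (hγ' z).trans (hg z).symm⟩

theorem ord (h : Fr M P R g) {o : Ordinal.{u}} : o.toZFSet ∈ ExtZ M g ↔ o.toZFSet ∈ M := by
  obtain ⟨Q, inst, c, G, hQ, hG, hc, hle, hg, he⟩ := h.exists_Q
  rw [he]; exact toZFSet_mem_Ext h.hM hQ hG.ne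

theorem min (h : Fr M P R g) {N : Set ZFSet.{u}} (hN : CTM N) (hMN : M ⊆ N) {γ : ZFSet.{u}} (hγ : γ ∈ N)
    (hγ' : ∀ z, z ∈ γ ↔ z ∈ g) : ExtZ M g ⊆ N := by
  obtain ⟨Q, inst, c, G, hQ, hG, hc, hle, hg, he⟩ := h.exists_Q
  rw [he]
  exact Ext_subset hN hMN hγ (fun z => (hγ' z).trans (hg z)) hQ.inj

/-- A generic filter meets definable classes that are dense below one of its elements. -/
theorem gen_dfn (h : Fr M P R g) {D : M → Prop} (hD : h.hM.Dfn (fun v : Fin 1 → M => D (v 0)))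
    {p : ZFSet.{u}} (hp : p ∈ g) (hd : ∀ r : M, ZFSet.pair r.1 p ∈ R → ∃ q : M, ZFSet.pair q.1 r.1 ∈ R ∧ D q) :
    ∃ q : M, q.1 ∈ g ∧ D q := by
  obtain ⟨Q, inst, c, G, hQ, hG, hc, hle, hg, he⟩ := h.exists_Q
  obtain ⟨p', hp', rfl⟩ := (hg p).1 hp
  obtain ⟨q, hq, hqD⟩ := hG.gen_dfn h.hM hQ hD hp' (by
    intro r hr
    have hrM : c r ∈ M := h.hM.mem_of_mem h.hP ((hc _).2 ⟨r, rfl⟩)
    obtain ⟨q, hq, hqD⟩ := hd ⟨c r, hrM⟩ ((hle _ _).1 hr)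
    obtain ⟨q', hq'⟩ := (hc q.1).1 (h.po.mem hq).1
    refine ⟨q', (hle _ _).2 (by rw [← hq']; exact hq), fun z hz => ?_⟩
    have : z = q := Subtype.ext (hz.trans hq'.symm)
    rw [this]; exact hqD)
  exact ⟨⟨c q, h.hM.mem_of_mem h.hP ((hc _).2 ⟨q, rfl⟩)⟩, (hg _).2 ⟨q, hq, rfl⟩, hqD _ rfl⟩

/-- The forcing theorem: what holds in `M[g]` is forced by an element of `g`. -/
theorem forced (h : Fr M P R g) (φ : Fml) (f : ℕ → M)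
    (hs : Sat (SMem (ExtZ M g)) φ (fun i => ⟨evZ g (f i).1, ⟨(f i).1, (f i).2, rfl⟩⟩)) :
    ∃ p ∈ g, ∀ g', Fr M P R g' → p ∈ g' →
      Sat (SMem (ExtZ M g')) φ (fun i => ⟨evZ g' (f i).1, ⟨(f i).1, (f i).2, rfl⟩⟩) := by
  obtain ⟨Q, inst, c, G, hQ, hG, hc, hle, hg, he⟩ := h.exists_Q
  have tr : ∀ (F F' : ZFSet.{u} → ZFSet.{u}), F = F' →
      (Sat (SMem (F '' M)) φ (fun i => ⟨F (f i).1, ⟨(f i).1, (f i).2, rfl⟩⟩) ↔
        Sat (SMem (F' '' M)) φ (fun i => ⟨F' (f i).1, ⟨(f i).1, (f i).2, rfl⟩⟩)) := by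
    rintro _ _ rfl; exact Iff.rfl
  have h1 := (tr _ _ (funext (evZ_eq c hg))).1 hs
  obtain ⟨p, hp, h2⟩ := (truth h.hM hQ hG φ f).1 h1
  refine ⟨c p, (hg _).2 ⟨p, hp, rfl⟩, fun g' hg' hpg => ?_⟩
  have hgG : ∀ z, z ∈ g' ↔ ∃ q ∈ {q | c q ∈ g'}, z = c q := by
    intro z
    constructor
    · intro hz
      obtain ⟨q, rfl⟩ := (hc z).1 (hg'.gen.sub z hz)
      exact ⟨q, hz, rfl⟩
    · rintro ⟨q, hq, rfl⟩; exact hq
  have hG' : GenF M c {q | c q ∈ g'} := by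
    refine ⟨?_, ?_, ?_, ?_⟩
    · obtain ⟨z, hz⟩ := hg'.gen.ne
      obtain ⟨q, hq, _⟩ := (hgG z).1 hz
      exact ⟨q, hq⟩
    · intro p hp q hpq
      exact hg'.gen.up _ hp _ ((hle p q).1 hpq)
    · intro p hp q hq
      obtain ⟨r, hr, h1, h2⟩ := hg'.gen.dir _ hp _ hq
      obtain ⟨r', hr', rfl⟩ := (hgG r).1 hr
      exact ⟨r', hr', (hle _ _).2 h1, (hle _ _).2 h2⟩
    · intro D hD hd
      obtain ⟨p, hp, hpD⟩ := hg'.gen.gen D hD (by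
        intro p hp
        obtain ⟨p', rfl⟩ := (hc p).1 hp
        obtain ⟨q, hq, hqD⟩ := hd p'
        exact ⟨c q, hqD, (hle _ _).1 hq⟩)
      obtain ⟨p', hp', rfl⟩ := (hgG p).1 hp
      exact ⟨p', hp', hpD⟩
  exact (tr _ _ (funext (evZ_eq c hgG))).2 ((truth h.hM hQ hG' φ f).2 ⟨p, hpg, h2⟩)

end Fr

end Pool.Agent.H17.CF
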